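import Pool.Agent.Lib.MP_136c99_an.Base

set_option autoImplicit false

open Filter Topology

namespace Pool.Agent.Results.MP_136c99_an.SnowflakeFailsAP

universe u

/-- `ω` is a gauge: continuous, subadditive and increasing on `[0, ∞)`, with `ω 0 = 0` and
`ω t ≥ t` for `t ∈ [0, 1]`. -/
structure IsGauge (ω : ℝ → ℝ) : Prop where
  cont : ContinuousOn ω (Set.Ici 0)
  subadd : ∀ s t : ℝ, 0 ≤ s → 0 ≤ t → ω (s + t) ≤ ω s + ω t
  mono : StrictMonoOn ω (Set.Ici 0)
  zero : ω 0 = 0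
  ge_id : ∀ t : ℝ, 0 ≤ t → t ≤ 1 → t ≤ ω t

/-- The gauge `ω` is nontrivial: `ω t / t → ∞` as `t → 0+`. -/
def IsNontrivialGauge (ω : ℝ → ℝ) : Prop :=
  IsGauge ω ∧ Tendsto (fun t : ℝ => ω t / t) (𝓝[>] 0) atTop

/-- `δ : M → E` exhibits the Banach space `E` as the Lipschitz-free space of `(M, ω ∘ d)` with
base point `x0` (universal property: `δ x0 = 0`, `δ` is isometric for the metric `ω ∘ d`, its range
spans a dense subspace, and every function vanishing at `x0` that is `1`-Lipschitz for `ω ∘ d`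
extends to a linear functional of norm at most `1`). -/
structure IsFreeSpace {M : Type} [MetricSpace M] (ω : ℝ → ℝ) (x0 : M) {E : Type u}
    [NormedAddCommGroup E] [NormedSpace ℝ E] (δ : M → E) : Prop where
  zero : δ x0 = 0
  iso : ∀ x y : M, ‖δ x - δ y‖ = ω (dist x y)
  dense : Dense ((Submodule.span ℝ (Set.range δ) : Submodule ℝ E) : Set E)
  ext : ∀ f : M → ℝ, f x0 = 0 → (∀ a b : M, |f a - f b| ≤ ω (dist a b)) →
    ∃ φ : E →L[ℝ] ℝ, ‖φ‖ ≤ 1 ∧ ∀ x : M, φ (δ x) = f x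

/-- The approximation property: on every compact set the identity is uniformly approximated by
bounded operators of finite rank. -/
def HasAP (E : Type u) [NormedAddCommGroup E] [NormedSpace ℝ E] : Prop :=
  ∀ K : Set E, IsCompact K → ∀ ε : ℝ, 0 < ε →
    ∃ T : E →L[ℝ] E, FiniteDimensional ℝ (LinearMap.range (T : E →ₗ[ℝ] E)) ∧
      ∀ z ∈ K, ‖T z - z‖ ≤ ε

lemma nontrivial_snow : IsNontrivialGauge (fun t : ℝ => t ^ (7 / 8 : ℝ)) := by
  refine ⟨⟨?_, ?_, ?_, ?_, ?_⟩, ?_⟩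
  · exact (Real.continuous_rpow_const (by norm_num)).continuousOn
  · intro s t hs ht
    exact Real.rpow_add_le_add_rpow hs ht (by norm_num) (by norm_num)
  · exact Real.strictMonoOn_rpow_Ici_of_exponent_pos (by norm_num)
  · exact Real.zero_rpow (by norm_num)
  · intro t ht0 ht1
    calc t = t ^ (1 : ℝ) := (Real.rpow_one _).symm
      _ ≤ t ^ (7 / 8 : ℝ) :=
        Real.rpow_le_rpow_of_exponent_ge' ht0 ht1 (by norm_num) (by norm_num)
  · have h1 : Tendsto (fun t : ℝ => t ^ (-(1 / 8) : ℝ)) (𝓝[>] 0) atTop :=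
      tendsto_rpow_neg_nhdsGT_zero (by norm_num)
    refine h1.congr' ?_
    filter_upwards [self_mem_nhdsWithin] with t ht
    have ht' : (0 : ℝ) < t := ht
    have : t ^ (7 / 8 : ℝ) / t = t ^ (7 / 8 : ℝ) / t ^ (1 : ℝ) := by rw [Real.rpow_one]
    rw [this, ← Real.rpow_sub ht']
    norm_num

/-- There is a compact metric space `M` (with a base point `x0`) such that the Lipschitz-free space
of the snowflake `(M, d ^ (7/8))` fails the approximation property; `t ^ (7/8)` is a nontrivial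
gauge, and the free space exists. -/
theorem result : ∃ (M : Type) (_ : MetricSpace M) (_ : CompactSpace M) (x0 : M) (ω : ℝ → ℝ),
    (∀ t : ℝ, ω t = t ^ (7 / 8 : ℝ)) ∧ IsNontrivialGauge ω ∧
    (∃ (E : Type) (_ : NormedAddCommGroup E) (_ : NormedSpace ℝ E) (_ : CompleteSpace E)
      (δ : M → E), IsFreeSpace ω x0 δ) ∧
    ∀ (E : Type u) [NormedAddCommGroup E] [NormedSpace ℝ E] [CompleteSpace E] (δ : M → E),
      IsFreeSpace ω x0 δ → ¬ HasAP E := by
  refine ⟨Pool.Agent.Lib.MP_136c99_an.Base, inferInstance, inferInstance, Pool.Agent.Lib.MP_136c99_an.pt0,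
    fun t : ℝ => t ^ (7 / 8 : ℝ), fun _ => rfl, nontrivial_snow, ?_, ?_⟩
  · obtain ⟨E, i1, i2, i3, δ, h0, h1, h2, h3⟩ :=
      Pool.Agent.Lib.MP_136c99_an.exists_free Pool.Agent.Lib.MP_136c99_an.Pt
        Pool.Agent.Lib.MP_136c99_an.pt0
    exact ⟨E, i1, i2, i3, δ, ⟨h0, h1, h2, h3⟩⟩
  · intro E _ _ _ δ hδ hAP
    have hd : Pool.Agent.Lib.MP_136c99_an.FreeData (E := E) δ :=
      ⟨hδ.zero, hδ.iso, hδ.dense, hδ.ext⟩
    obtain ⟨ε, hε, hno⟩ := Pool.Agent.Lib.MP_136c99_an.no_approx hd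
    obtain ⟨T, hT1, hT2⟩ := hAP _ (Pool.Agent.Lib.MP_136c99_an.isCompact_KK hd) ε hε
    exact hno T hT1 hT2

end Pool.Agent.Results.MP_136c99_an.SnowflakeFailsAP
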